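import Pool.Agent.Helper392_PC.Curve

/-!
# The complexes `Γ(X,n) ⊗ ℚ` of open subsets of `P^1_k`, `k` algebraic over `F_p`

Let `k` be an algebraic extension of `F_p` and `X` a nonempty open subset of `P^1_k`, with function
field `F = k(x)` and residue fields `κ(x)`, `x ∈ X` closed (of arbitrary degree over `k`).

* If `k` is infinite, the complexes `Γ(X,n) ⊗ ℚ` are acyclic for all `n ≥ 2`.
* For all `k`, also for finite `k`, `H^i(Γ(X,n) ⊗ ℚ) = 0` for all `n ≥ 2` and `i = 1`, `n - 1`,
  `n`, `n + 1`; so `Γ(X,2) ⊗ ℚ` and `Γ(X,3) ⊗ ℚ` are acyclic.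

On the side of `K`-theory `gr_n K_m(X)_ℚ = 0` for `n ≥ 2` and all `m` (Harder, Quillen).

The definitions are in `Pool/Agent/H39R2/GonP/Defs.lean` and `Pool/Agent/TH358/BG/Defs.lean`. The
set `X` of closed points, the residue fields (algebraic over `F_p`) and the residue maps are
arbitrary.
-/

set_option autoImplicit false

namespace Pool.Agent.Results.MP_bae8ce_ag.OpenSubsetsAllConstants

open GonP Pool.Agent.TH358.BG

theorem result (p : ℕ) [Fact p.Prime] (k : Type) [Field k] [Algebra (ZMod p) k]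
    [Algebra.IsAlgebraic (ZMod p) k] :
    Nonempty (Differentials (RatFunc k)) ∧
    ∀ (X : Type) (κ : X → Type) [∀ x, Field (κ x)] [∀ x, Algebra (ZMod p) (κ x)]
      [∀ x, Algebra.IsAlgebraic (ZMod p) (κ x)],
      (∀ x, Nonempty (Differentials (κ x))) ∧
      ∀ (DF : Differentials (RatFunc k)) (Dκ : ∀ x, Differentials (κ x))
        (res : Res (RatFunc k) κ),
        -- `k` infinite: all complexes are acyclic
        (Infinite k → XAcyclic DF Dκ res) ∧
        -- degree `1`, `n = m + 2`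
        (∀ m z, tot DF Dκ res (m + 1) 0 z = 0 → z = 0) ∧
        -- degree `n - 1`, `n = j + 3`
        (∀ j z, tot DF Dκ res 1 (j + 1) z = 0 ↔ ∃ w, tot DF Dκ res 2 j w = z) ∧
        -- degree `n`, `n = j + 2`
        (∀ j z, tot DF Dκ res 0 (j + 1) z = 0 ↔ ∃ w, tot DF Dκ res 1 j w = z) ∧
        -- degree `n + 1`, `n = j + 2`
        ∀ j z, ∃ w, tot DF Dκ res 0 (j + 1) w = z :=
  Helper392PC.curve_main p k

end Pool.Agent.Results.MP_bae8ce_ag.OpenSubsetsAllConstants
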